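import Pool.Agent.N490.PF.Pts
import Pool.Agent.H691R3.PrimeSum
import Pool.Agent.P8H15.EK.Stm

/-!
# Project EK, package DIS: the average of the number of the primes whose square divides `4 a³ + 27 b²`
-/

set_option autoImplicit false
set_option linter.all false

open Polynomial NumberField IsDedekindDomain
open scoped Classical

namespace Pool.Agent.P8H55.EK

open Pool.Agent.N783.PF (Bd)
open Pool.Agent.P8H15.EK

variable {F : Type} [Field F] [NumberField F]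

/-- the bound for points in boxes -/
def Pt (F : Type) [Field F] [NumberField F] (C : ℝ) : Prop :=
  ∀ (𝔞 : Ideal (𝓞 F)) (b : 𝓞 F) (R : ℝ), 𝔞 ≠ ⊥ → 0 ≤ R →
      {a : 𝓞 F | a - b ∈ 𝔞 ∧ Bd (a : F) R}.Finite ∧
      (({a : 𝓞 F | a - b ∈ 𝔞 ∧ Bd (a : F) R}.ncard : ℝ)) ≤
        C * (R ^ Module.finrank ℚ F / (Ideal.absNorm 𝔞 : ℝ) + 1)

theorem nrm_pos {𝔞 : Ideal (𝓞 F)} (h0 : 𝔞 ≠ ⊥) : (0 : ℝ) < Ideal.absNorm 𝔞 := by
  have : Ideal.absNorm 𝔞 ≠ 0 := fun h => h0 (Ideal.absNorm_eq_zero_iff.1 h)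
  positivity

theorem cnt {C : ℝ} (hC : 0 < C) (hP : Pt F C) (s : Finset (𝓞 F)) (𝔞 : Ideal (𝓞 F)) (b : 𝓞 F)
    (R : ℝ) (h0 : 𝔞 ≠ ⊥) (hR : 0 ≤ R) (hN : (Ideal.absNorm 𝔞 : ℝ) ≤ R ^ Module.finrank ℚ F)
    (hs : ∀ a ∈ s, a - b ∈ 𝔞 ∧ Bd (a : F) R) :
    (s.card : ℝ) ≤ 2 * C * (R ^ Module.finrank ℚ F / (Ideal.absNorm 𝔞 : ℝ)) := by
  obtain ⟨hf, h1⟩ := hP 𝔞 b R h0 hR
  have h3 : (s.card : ℝ) ≤ ({a : 𝓞 F | a - b ∈ 𝔞 ∧ Bd (a : F) R}.ncard : ℝ) := by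
    have : s.card ≤ {a : 𝓞 F | a - b ∈ 𝔞 ∧ Bd (a : F) R}.ncard := by
      rw [← Set.ncard_coe_finset s]
      exact Set.ncard_le_ncard (fun a ha => hs a (Finset.mem_coe.1 ha)) hf
    exact_mod_cast this
  have h2 : 1 ≤ R ^ Module.finrank ℚ F / (Ideal.absNorm 𝔞 : ℝ) := (one_le_div (nrm_pos h0)).2 hN
  nlinarith

theorem cnt1 {C : ℝ} (hC : 0 < C) (hP : Pt F C) (s : Finset (𝓞 F)) (R : ℝ) (hR : 1 ≤ R)
    (hs : ∀ a ∈ s, Bd (a : F) R) : (s.card : ℝ) ≤ 2 * C * R ^ Module.finrank ℚ F := by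
  have h := cnt hC hP s ⊤ 0 R (by simp) (by linarith) (by
    rw [Ideal.absNorm_top, Nat.cast_one]; exact one_le_pow₀ hR) (fun a ha => ⟨Submodule.mem_top, hs a ha⟩)
  rwa [Ideal.absNorm_top, Nat.cast_one, div_one] at h

theorem nsq (v : HeightOneSpectrum (𝓞 F)) :
    (Ideal.absNorm (v.asIdeal ^ 2) : ℝ) = (Ideal.absNorm v.asIdeal : ℝ) ^ 2 := by
  rw [map_pow, Nat.cast_pow]

/-- the second coordinates for a first coordinate not in `v` -/
theorem cnt2 {C : ℝ} (hC : 0 < C) (hP : Pt F C) (v : HeightOneSpectrum (𝓞 F))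
    (h2 : (2 : 𝓞 F) ∉ v.asIdeal) (h3 : (3 : 𝓞 F) ∉ v.asIdeal) (a : 𝓞 F) (ha : a ∉ v.asIdeal)
    (s : Finset (𝓞 F)) (R : ℝ) (hR : 0 ≤ R)
    (hN : (Ideal.absNorm v.asIdeal : ℝ) ^ 2 ≤ R ^ Module.finrank ℚ F)
    (hs : ∀ b ∈ s, Bd (b : F) R ∧ v ∈ SqD a b) :
    (s.card : ℝ) ≤ 4 * C * (R ^ Module.finrank ℚ F / (Ideal.absNorm v.asIdeal : ℝ) ^ 2) := by
  have hv := v.isPrime
  have hv2 : v.asIdeal ^ 2 ≠ ⊥ := pow_ne_zero 2 v.ne_bot
  rcases s.eq_empty_or_nonempty with rfl | ⟨b₀, hb₀⟩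
  · rw [Finset.card_empty, Nat.cast_zero]
    have := (nrm_pos v.ne_bot).le
    positivity
  · have hb : ∀ b ∈ s, b ∉ v.asIdeal := by
      intro b hb hbv
      have h1 : 4 * a ^ 3 + 27 * b ^ 2 ∈ v.asIdeal ^ 2 := (hs b hb).2
      have h4 : 4 * a ^ 3 + 27 * b ^ 2 ∈ v.asIdeal := Ideal.pow_le_self two_ne_zero h1
      have h5 : 4 * a ^ 3 ∈ v.asIdeal := by
        have h6 : 27 * b ^ 2 ∈ v.asIdeal :=
          Ideal.mul_mem_left _ _ (Ideal.pow_mem_of_mem _ hbv 2 two_pos)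
        have e : 4 * a ^ 3 = (4 * a ^ 3 + 27 * b ^ 2) - 27 * b ^ 2 := by ring
        rw [e]
        exact Ideal.sub_mem _ h4 h6
      rcases hv.mem_or_mem h5 with h6 | h6
      · have e : (4 : 𝓞 F) = 2 * 2 := by norm_num
        rw [e] at h6
        rcases hv.mem_or_mem h6 with h7 | h7 <;> exact h2 h7
      · exact ha (hv.mem_of_pow_mem 3 h6)
    have hsub : s ⊆ s.filter (fun b => b - b₀ ∈ v.asIdeal ^ 2) ∪
        s.filter (fun b => b - (-b₀) ∈ v.asIdeal ^ 2) := by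
      intro b hbs
      have h1 : 4 * a ^ 3 + 27 * b ^ 2 ∈ v.asIdeal ^ 2 := (hs b hbs).2
      have h1' : 4 * a ^ 3 + 27 * b₀ ^ 2 ∈ v.asIdeal ^ 2 := (hs b₀ hb₀).2
      have h4 : 3 * (3 * (3 * ((b - b₀) * (b - (-b₀))))) ∈ v.asIdeal ^ 2 := by
        have e : 3 * (3 * (3 * ((b - b₀) * (b - (-b₀))))) =
            (4 * a ^ 3 + 27 * b ^ 2) - (4 * a ^ 3 + 27 * b₀ ^ 2) := by ring
        rw [e]
        exact Ideal.sub_mem _ h1 h1'
      have h5 : ∀ x : 𝓞 F, 3 * x ∈ v.asIdeal ^ 2 → x ∈ v.asIdeal ^ 2 := fun x hx =>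
        (Ideal.IsPrime.mul_mem_pow v.asIdeal hx).resolve_left h3
      have h6 := h5 _ (h5 _ (h5 _ h4))
      rw [Finset.mem_union, Finset.mem_filter, Finset.mem_filter]
      by_cases h7 : b - b₀ ∈ v.asIdeal
      · left
        refine ⟨hbs, ?_⟩
        rw [mul_comm] at h6
        refine (Ideal.IsPrime.mul_mem_pow v.asIdeal h6).resolve_left fun h8 => ?_
        have h9 : 2 * b ∈ v.asIdeal := by
          have e : 2 * b = (b - b₀) + (b - (-b₀)) := by ring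
          rw [e]
          exact Ideal.add_mem _ h7 h8
        rcases hv.mem_or_mem h9 with h | h
        · exact h2 h
        · exact hb b hbs h
      · right
        exact ⟨hbs, (Ideal.IsPrime.mul_mem_pow v.asIdeal h6).resolve_left h7⟩
    have hc1 := cnt hC hP (s.filter (fun b => b - b₀ ∈ v.asIdeal ^ 2)) (v.asIdeal ^ 2) b₀ R hv2 hR
      (by rw [nsq]; exact hN) (fun b hb => ⟨(Finset.mem_filter.1 hb).2,
        (hs b (Finset.mem_filter.1 hb).1).1⟩)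
    have hc2 := cnt hC hP (s.filter (fun b => b - (-b₀) ∈ v.asIdeal ^ 2)) (v.asIdeal ^ 2) (-b₀) R
      hv2 hR (by rw [nsq]; exact hN) (fun b hb => ⟨(Finset.mem_filter.1 hb).2,
        (hs b (Finset.mem_filter.1 hb).1).1⟩)
    rw [nsq] at hc1 hc2
    have hc3 : (s.card : ℝ) ≤ ((s.filter (fun b => b - b₀ ∈ v.asIdeal ^ 2)).card : ℝ) +
        ((s.filter (fun b => b - (-b₀) ∈ v.asIdeal ^ 2)).card : ℝ) := by
      exact_mod_cast (Finset.card_le_card hsub).trans (Finset.card_union_le _ _)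
    linarith

theorem fin_mem {x : 𝓞 F} (hx : x ≠ 0) : {v : HeightOneSpectrum (𝓞 F) | x ∈ v.asIdeal}.Finite := by
  have h1 : Ideal.span {x} ≠ 0 := by
    rw [Ne, Ideal.zero_eq_bot, Ideal.span_singleton_eq_bot]
    exact hx
  refine (Ideal.finite_factors h1).subset fun v hv => ?_
  change v.asIdeal ∣ Ideal.span {x}
  rw [Ideal.dvd_span_singleton]
  exact hv

theorem fin_sqd {a b : 𝓞 F} (h : 4 * a ^ 3 + 27 * b ^ 2 ≠ 0) : (SqD a b).Finite :=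
  (fin_mem h).subset fun _ hv => Ideal.pow_le_self two_ne_zero hv

/-- few large primes -/
theorem large {a b : 𝓞 F} (h : 4 * a ^ 3 + 27 * b ^ 2 ≠ 0) (B : ℕ) (hB : 2 ≤ B)
    (ha : Bd (a : F) ((B : ℝ) ^ 2)) (hb : Bd (b : F) ((B : ℝ) ^ 3))
    (S : Finset (HeightOneSpectrum (𝓞 F))) (hS : ∀ v ∈ S, v ∈ SqD a b ∧
      (B : ℝ) ^ Module.finrank ℚ F < Ideal.absNorm v.asIdeal) : S.card ≤ 6 := by
  by_contra hn
  have hB' : (2 : ℝ) ≤ B := by exact_mod_cast hB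
  have h1 : 4 * a ^ 3 + 27 * b ^ 2 ∈ ∏ v ∈ S, v.asIdeal ^ 2 := by
    rw [← Ideal.dvd_span_singleton]
    refine Finset.prod_dvd_of_coprime ?_ fun v hv => ?_
    · intro v _ w _ hvw
      have hne : v.asIdeal ≠ w.asIdeal := fun h => hvw (HeightOneSpectrum.ext h)
      have := v.isMaximal
      have := w.isMaximal
      exact IsCoprime.pow (Ideal.isCoprime_of_isMaximal hne)
    · rw [Ideal.dvd_span_singleton]
      exact (hS v hv).1
  have h2 : Bd ((4 * a ^ 3 + 27 * b ^ 2 : 𝓞 F) : F) (31 * (B : ℝ) ^ 6) := by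
    intro σ
    have e : ((4 * a ^ 3 + 27 * b ^ 2 : 𝓞 F) : F) = 4 * (a : F) ^ 3 + 27 * (b : F) ^ 2 := by
      have e4 : algebraMap (𝓞 F) F 4 = 4 := map_ofNat _ 4
      have e27 : algebraMap (𝓞 F) F 27 = 27 := map_ofNat _ 27
      change algebraMap (𝓞 F) F _ = _
      rw [map_add, map_mul, map_mul, map_pow, map_pow, e4, e27]
    rw [e, map_add, map_mul, map_mul, map_pow, map_pow, map_ofNat, map_ofNat]
    refine (norm_add_le _ _).trans ?_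
    rw [norm_mul, norm_mul, norm_pow, norm_pow]
    have e1 : ‖(4 : ℂ)‖ = 4 := by norm_num
    have e2 : ‖(27 : ℂ)‖ = 27 := by norm_num
    rw [e1, e2]
    have h3 : ‖σ (a : F)‖ ^ 3 ≤ ((B : ℝ) ^ 2) ^ 3 := pow_le_pow_left₀ (norm_nonneg _) (ha σ) 3
    have h4 : ‖σ (b : F)‖ ^ 2 ≤ ((B : ℝ) ^ 3) ^ 2 := pow_le_pow_left₀ (norm_nonneg _) (hb σ) 2
    nlinarith
  have h3 := (Pool.Agent.N490.PF.norm_ge h1 h h2).2
  rw [map_prod, Nat.cast_prod] at h3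
  have hd : Module.finrank ℚ F ≠ 0 := Module.finrank_pos.ne'
  have h4 : (((B : ℝ) ^ 2) ^ S.card) ^ Module.finrank ℚ F ≤
      (31 * (B : ℝ) ^ 6) ^ Module.finrank ℚ F := by
    refine le_trans ?_ h3
    have e : (((B : ℝ) ^ 2) ^ S.card) ^ Module.finrank ℚ F =
        ∏ _v ∈ S, ((B : ℝ) ^ Module.finrank ℚ F) ^ 2 := by
      rw [Finset.prod_const]
      ring
    rw [e]
    refine Finset.prod_le_prod (fun _ _ => by positivity) fun v hv => ?_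
    rw [map_pow, Nat.cast_pow]
    exact pow_le_pow_left₀ (by positivity) (hS v hv).2.le 2
  have h5 : ((B : ℝ) ^ 2) ^ S.card ≤ 31 * (B : ℝ) ^ 6 :=
    (pow_le_pow_iff_left₀ (by positivity) (by positivity) hd).1 h4
  have h6 : ((B : ℝ) ^ 2) ^ 7 ≤ ((B : ℝ) ^ 2) ^ S.card :=
    pow_le_pow_right₀ (one_le_pow₀ (by linarith)) (by omega)
  have h7 : (B : ℝ) ^ 6 * (B : ℝ) ^ 8 ≤ (B : ℝ) ^ 6 * 31 := by
    calc (B : ℝ) ^ 6 * (B : ℝ) ^ 8 = ((B : ℝ) ^ 2) ^ 7 := by ring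
      _ ≤ _ := h6.trans h5
      _ = (B : ℝ) ^ 6 * 31 := by ring
  have h8 : (B : ℝ) ^ 8 ≤ 31 := le_of_mul_le_mul_left h7 (by positivity)
  have h9 : (2 : ℝ) ^ 8 ≤ (B : ℝ) ^ 8 := pow_le_pow_left₀ (by norm_num) hB' 8
  norm_num at h9
  linarith

/-- the pairs for a small prime -/
theorem small {C : ℝ} (hC : 0 < C) (hP : Pt F C) (v : HeightOneSpectrum (𝓞 F))
    (h6 : (6 : 𝓞 F) ∉ v.asIdeal) (B : ℕ) (hB : 1 ≤ B)
    (hq : (Ideal.absNorm v.asIdeal : ℝ) ≤ (B : ℝ) ^ Module.finrank ℚ F)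
    (T : Finset (𝓞 F × 𝓞 F)) (hT : ∀ p ∈ T, Bd (p.1 : F) ((B : ℝ) ^ 2) ∧
      Bd (p.2 : F) ((B : ℝ) ^ 3) ∧ v ∈ SqD p.1 p.2) :
    (T.card : ℝ) ≤ 12 * C ^ 2 * (B : ℝ) ^ (5 * Module.finrank ℚ F) *
      ((Ideal.absNorm v.asIdeal : ℝ) ^ 2)⁻¹ := by
  have hB' : (1 : ℝ) ≤ B := by exact_mod_cast hB
  have hv := v.isPrime
  have hq0 := nrm_pos v.ne_bot
  have h2 : (2 : 𝓞 F) ∉ v.asIdeal := fun h => h6 (by
    have e : (6 : 𝓞 F) = 3 * 2 := by norm_num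
    rw [e]; exact Ideal.mul_mem_left _ _ h)
  have h3 : (3 : 𝓞 F) ∉ v.asIdeal := fun h => h6 (by
    have e : (6 : 𝓞 F) = 2 * 3 := by norm_num
    rw [e]; exact Ideal.mul_mem_left _ _ h)
  have hBd : 1 ≤ (B : ℝ) ^ Module.finrank ℚ F := one_le_pow₀ hB'
  have e2 : ((B : ℝ) ^ 2) ^ Module.finrank ℚ F = ((B : ℝ) ^ Module.finrank ℚ F) ^ 2 := by ring
  have e3 : ((B : ℝ) ^ 3) ^ Module.finrank ℚ F = ((B : ℝ) ^ Module.finrank ℚ F) ^ 3 := by ring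
  have hn2 : (Ideal.absNorm v.asIdeal : ℝ) ≤ ((B : ℝ) ^ 2) ^ Module.finrank ℚ F := by
    rw [e2]; nlinarith
  have hn3 : (Ideal.absNorm v.asIdeal : ℝ) ≤ ((B : ℝ) ^ 3) ^ Module.finrank ℚ F := by
    rw [e3]
    have : ((B : ℝ) ^ Module.finrank ℚ F) ^ 1 ≤ ((B : ℝ) ^ Module.finrank ℚ F) ^ 3 :=
      pow_le_pow_right₀ hBd (by norm_num)
    linarith
  have hn32 : (Ideal.absNorm v.asIdeal : ℝ) ^ 2 ≤ ((B : ℝ) ^ 3) ^ Module.finrank ℚ F := by
    rw [e3]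
    have h4 : (Ideal.absNorm v.asIdeal : ℝ) ^ 2 ≤ ((B : ℝ) ^ Module.finrank ℚ F) ^ 2 :=
      pow_le_pow_left₀ hq0.le hq 2
    have : ((B : ℝ) ^ Module.finrank ℚ F) ^ 2 ≤ ((B : ℝ) ^ Module.finrank ℚ F) ^ 3 :=
      pow_le_pow_right₀ hBd (by norm_num)
    linarith
  -- sum over the first coordinate
  have hcard : T.card = ∑ a ∈ T.image Prod.fst, (T.filter fun p => p.1 = a).card :=
    Finset.card_eq_sum_card_image Prod.fst T
  have hfib : ∀ a, (T.filter fun p => p.1 = a).card =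
      ((T.filter fun p => p.1 = a).image Prod.snd).card := by
    intro a
    rw [Finset.card_image_of_injOn]
    intro p hp q hq' hpq
    have h1 := (Finset.mem_filter.1 (Finset.mem_coe.1 hp)).2
    have h2 := (Finset.mem_filter.1 (Finset.mem_coe.1 hq')).2
    exact Prod.ext (h1.trans h2.symm) hpq
  have hbd : ∀ a ∈ T.image Prod.fst, Bd (a : F) ((B : ℝ) ^ 2) := by
    intro a ha
    obtain ⟨p, hp, rfl⟩ := Finset.mem_image.1 ha
    exact (hT p hp).1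
  have hsnd : ∀ a, ∀ b ∈ (T.filter fun p => p.1 = a).image Prod.snd,
      Bd (b : F) ((B : ℝ) ^ 3) ∧ v ∈ SqD a b := by
    intro a b hb
    obtain ⟨p, hp, rfl⟩ := Finset.mem_image.1 hb
    obtain ⟨hp1, rfl⟩ := Finset.mem_filter.1 hp
    exact (hT p hp1).2
  have hsplit := Finset.sum_filter_add_sum_filter_not (T.image Prod.fst)
    (fun a => a ∈ v.asIdeal) (fun a => (((T.filter fun p => p.1 = a).card : ℕ) : ℝ))
  have hTc : (T.card : ℝ) = ∑ a ∈ T.image Prod.fst, (((T.filter fun p => p.1 = a).card : ℕ) : ℝ) := by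
    rw [hcard]
    push_cast
    rfl
  have hK1 : ∀ a ∈ (T.image Prod.fst).filter (fun a => a ∈ v.asIdeal),
      (((T.filter fun p => p.1 = a).card : ℕ) : ℝ) ≤
        2 * C * (((B : ℝ) ^ 3) ^ Module.finrank ℚ F / (Ideal.absNorm v.asIdeal : ℝ)) := by
    intro a ha
    have hav := (Finset.mem_filter.1 ha).2
    rw [hfib]
    refine cnt hC hP _ v.asIdeal 0 _ v.ne_bot (by positivity) hn3 fun b hb => ?_
    obtain ⟨hb1, hb2⟩ := hsnd a b hb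
    refine ⟨?_, hb1⟩
    rw [sub_zero]
    have h4 : 4 * a ^ 3 + 27 * b ^ 2 ∈ v.asIdeal := Ideal.pow_le_self two_ne_zero hb2
    have h5 : 4 * a ^ 3 ∈ v.asIdeal :=
      Ideal.mul_mem_left _ _ (Ideal.pow_mem_of_mem _ hav 3 (by norm_num))
    have h7 : 3 * (3 * (3 * b ^ 2)) ∈ v.asIdeal := by
      have e : 3 * (3 * (3 * b ^ 2)) = (4 * a ^ 3 + 27 * b ^ 2) - 4 * a ^ 3 := by ring
      rw [e]
      exact Ideal.sub_mem _ h4 h5
    have h8 : ∀ x : 𝓞 F, 3 * x ∈ v.asIdeal → x ∈ v.asIdeal := fun x hx =>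
      (hv.mem_or_mem hx).resolve_left h3
    exact hv.mem_of_pow_mem 2 (h8 _ (h8 _ (h8 _ h7)))
  have hK2 : ∀ a ∈ (T.image Prod.fst).filter (fun a => ¬ a ∈ v.asIdeal),
      (((T.filter fun p => p.1 = a).card : ℕ) : ℝ) ≤
        4 * C * (((B : ℝ) ^ 3) ^ Module.finrank ℚ F / (Ideal.absNorm v.asIdeal : ℝ) ^ 2) := by
    intro a ha
    have hav := (Finset.mem_filter.1 ha).2
    rw [hfib]
    exact cnt2 hC hP v h2 h3 a hav _ _ (by positivity) hn32 (hsnd a)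
  have hA1 : (((T.image Prod.fst).filter (fun a => a ∈ v.asIdeal)).card : ℝ) ≤
      2 * C * (((B : ℝ) ^ 2) ^ Module.finrank ℚ F / (Ideal.absNorm v.asIdeal : ℝ)) := by
    refine cnt hC hP _ v.asIdeal 0 _ v.ne_bot (by positivity) hn2 fun a ha => ?_
    obtain ⟨h4, h5⟩ := Finset.mem_filter.1 ha
    exact ⟨by rw [sub_zero]; exact h5, hbd a h4⟩
  have hA2 : (((T.image Prod.fst).filter (fun a => ¬ a ∈ v.asIdeal)).card : ℝ) ≤
      2 * C * ((B : ℝ) ^ 2) ^ Module.finrank ℚ F :=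
    cnt1 hC hP _ _ (one_le_pow₀ hB') fun a ha => hbd a (Finset.mem_filter.1 ha).1
  have hs1 := Finset.sum_le_card_nsmul _ _ _ hK1
  have hs2 := Finset.sum_le_card_nsmul _ _ _ hK2
  rw [nsmul_eq_mul] at hs1 hs2
  have hm1 := mul_le_mul_of_nonneg_right hA1 (show (0 : ℝ) ≤
    2 * C * (((B : ℝ) ^ 3) ^ Module.finrank ℚ F / (Ideal.absNorm v.asIdeal : ℝ)) by positivity)
  have hm2 := mul_le_mul_of_nonneg_right hA2 (show (0 : ℝ) ≤
    4 * C * (((B : ℝ) ^ 3) ^ Module.finrank ℚ F / (Ideal.absNorm v.asIdeal : ℝ) ^ 2) by positivity)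
  have e5 : (B : ℝ) ^ (5 * Module.finrank ℚ F) =
      ((B : ℝ) ^ 2) ^ Module.finrank ℚ F * ((B : ℝ) ^ 3) ^ Module.finrank ℚ F := by ring
  have hfin : 12 * C ^ 2 * (B : ℝ) ^ (5 * Module.finrank ℚ F) *
      ((Ideal.absNorm v.asIdeal : ℝ) ^ 2)⁻¹ =
      2 * C * (((B : ℝ) ^ 2) ^ Module.finrank ℚ F / (Ideal.absNorm v.asIdeal : ℝ)) *
        (2 * C * (((B : ℝ) ^ 3) ^ Module.finrank ℚ F / (Ideal.absNorm v.asIdeal : ℝ))) +
      2 * C * ((B : ℝ) ^ 2) ^ Module.finrank ℚ F *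
        (4 * C * (((B : ℝ) ^ 3) ^ Module.finrank ℚ F / (Ideal.absNorm v.asIdeal : ℝ) ^ 2)) := by
    rw [e5]
    field_simp
    ring
  rw [hfin, hTc, ← hsplit]
  linarith

theorem dis : S_DIS := by
  intro F _ _
  obtain ⟨-, C, hC, -, hP⟩ := Pool.Agent.N490.PF.pts F
  have hP : Pt F C := hP
  have h60 : (6 : 𝓞 F) ≠ 0 := by norm_num
  have hW := fin_mem h60
  have hsum := Pool.Agent.H691R3.nm_summable (K := F) (x := 2) (by norm_num)
  obtain ⟨Sg, hSg⟩ : ∃ Sg : ℝ, Sg = ∑' v : HeightOneSpectrum (𝓞 F),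
      (Pool.Agent.H691R3.nm v : ℝ) ^ (-(2 : ℝ)) := ⟨_, rfl⟩
  have hSg0 : 0 ≤ Sg := by
    rw [hSg]
    exact tsum_nonneg fun v => by positivity
  refine ⟨⌈4 * C ^ 2 * (6 + hW.toFinset.card) + 12 * C ^ 2 * Sg⌉₊, 2, by norm_num,
    fun B hB T hT => ⟨fun p hp => fin_sqd (hT p hp).2.2, ?_⟩⟩
  have hB1 : 1 ≤ B := by omega
  have hB' : (1 : ℝ) ≤ B := by exact_mod_cast hB1
  have hBB : (0 : ℝ) ≤ (B : ℝ) ^ (5 * Module.finrank ℚ F) := by positivity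
  -- finite sets of primes
  obtain ⟨V, hV⟩ : ∃ V : 𝓞 F × 𝓞 F → Finset (HeightOneSpectrum (𝓞 F)),
      ∀ p ∈ T, ∀ v, v ∈ V p ↔ v ∈ SqD p.1 p.2 := by
    refine ⟨fun p => if h : p ∈ T then (fin_sqd (hT p h).2.2).toFinset else ∅, fun p hp v => ?_⟩
    beta_reduce
    rw [dif_pos hp, Set.Finite.mem_toFinset]
  have hVc : ∀ p ∈ T, (SqD p.1 p.2).ncard = (V p).card := by
    intro p hp
    rw [← Set.ncard_coe_finset]
    congr 1
    ext v
    rw [Finset.mem_coe, hV p hp]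
  obtain ⟨U, hU⟩ : ∃ U : Finset (HeightOneSpectrum (𝓞 F)), U = (T.biUnion V).filter fun v =>
      (6 : 𝓞 F) ∉ v.asIdeal ∧ (Ideal.absNorm v.asIdeal : ℝ) ≤ (B : ℝ) ^ Module.finrank ℚ F :=
    ⟨_, rfl⟩
  have hone : ∀ p ∈ T, ((V p).card : ℝ) ≤ 6 + hW.toFinset.card +
      ∑ v ∈ U, (if v ∈ V p then (1 : ℝ) else 0) := by
    intro p hp
    obtain ⟨hp1, hp2, hp3⟩ := hT p hp
    have hsub : V p ⊆ ((V p).filter fun v => (B : ℝ) ^ Module.finrank ℚ F <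
        Ideal.absNorm v.asIdeal) ∪ (hW.toFinset ∪ U.filter fun v => v ∈ V p) := by
      intro v hv
      rw [Finset.mem_union, Finset.mem_union, Finset.mem_filter, Finset.mem_filter,
        Set.Finite.mem_toFinset, hU, Finset.mem_filter, Finset.mem_biUnion]
      by_cases h1 : (B : ℝ) ^ Module.finrank ℚ F < Ideal.absNorm v.asIdeal
      · exact Or.inl ⟨hv, h1⟩
      · right
        by_cases h2 : (6 : 𝓞 F) ∈ v.asIdeal
        · exact Or.inl h2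
        · exact Or.inr ⟨⟨⟨p, hp, hv⟩, h2, not_lt.1 h1⟩, hv⟩
    have h1 : ((V p).filter fun v => (B : ℝ) ^ Module.finrank ℚ F <
        Ideal.absNorm v.asIdeal).card ≤ 6 :=
      large hp3 B hB hp1 hp2 _ fun v hv =>
        ⟨(hV p hp v).1 (Finset.mem_filter.1 hv).1, (Finset.mem_filter.1 hv).2⟩
    have h2 : (V p).card ≤ 6 + (hW.toFinset.card + (U.filter fun v => v ∈ V p).card) :=
      (Finset.card_le_card hsub).trans ((Finset.card_union_le _ _).trans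
        (Nat.add_le_add h1 (Finset.card_union_le _ _)))
    have h3 : ∑ v ∈ U, (if v ∈ V p then (1 : ℝ) else 0) = ((U.filter fun v => v ∈ V p).card : ℝ) := by
      rw [Finset.sum_ite, Finset.sum_const_zero, add_zero, Finset.sum_const, nsmul_eq_mul, mul_one]
    rw [h3]
    have h4 : ((V p).card : ℝ) ≤ ((6 + (hW.toFinset.card + (U.filter fun v => v ∈ V p).card) : ℕ) : ℝ) := by
      exact_mod_cast h2
    push_cast at h4
    linarith
  have htot : ((∑ p ∈ T, (SqD p.1 p.2).ncard : ℕ) : ℝ) ≤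
      (4 * C ^ 2 * (6 + hW.toFinset.card) + 12 * C ^ 2 * Sg) *
        (B : ℝ) ^ (5 * Module.finrank ℚ F) := by
    rw [Finset.sum_congr rfl hVc]
    push_cast
    have h1 := Finset.sum_le_sum hone
    rw [Finset.sum_add_distrib, Finset.sum_const, nsmul_eq_mul, Finset.sum_comm] at h1
    -- the number of the pairs
    have h2 : (T.card : ℝ) ≤ 4 * C ^ 2 * (B : ℝ) ^ (5 * Module.finrank ℚ F) := by
      have hsub : T ⊆ T.image Prod.fst ×ˢ T.image Prod.snd := fun p hp =>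
        Finset.mem_product.2 ⟨Finset.mem_image_of_mem _ hp, Finset.mem_image_of_mem _ hp⟩
      have h3 : (T.card : ℝ) ≤ ((T.image Prod.fst).card : ℝ) * ((T.image Prod.snd).card : ℝ) := by
        have := Finset.card_le_card hsub
        rw [Finset.card_product] at this
        exact_mod_cast this
      have h4 : ((T.image Prod.fst).card : ℝ) ≤ 2 * C * ((B : ℝ) ^ 2) ^ Module.finrank ℚ F :=
        cnt1 hC hP _ _ (one_le_pow₀ hB') fun a ha => by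
          obtain ⟨p, hp, rfl⟩ := Finset.mem_image.1 ha
          exact (hT p hp).1
      have h5 : ((T.image Prod.snd).card : ℝ) ≤ 2 * C * ((B : ℝ) ^ 3) ^ Module.finrank ℚ F :=
        cnt1 hC hP _ _ (one_le_pow₀ hB') fun a ha => by
          obtain ⟨p, hp, rfl⟩ := Finset.mem_image.1 ha
          exact (hT p hp).2.1
      calc (T.card : ℝ) ≤ _ := h3
        _ ≤ (2 * C * ((B : ℝ) ^ 2) ^ Module.finrank ℚ F) *
            (2 * C * ((B : ℝ) ^ 3) ^ Module.finrank ℚ F) :=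
          mul_le_mul h4 h5 (by positivity) (by positivity)
        _ = _ := by ring
    -- the small primes
    have h3 : ∀ v ∈ U, ∑ p ∈ T, (if v ∈ V p then (1 : ℝ) else 0) ≤
        12 * C ^ 2 * (B : ℝ) ^ (5 * Module.finrank ℚ F) *
          (Pool.Agent.H691R3.nm v : ℝ) ^ (-(2 : ℝ)) := by
      intro v hv
      rw [hU, Finset.mem_filter] at hv
      have h4 : ∑ p ∈ T, (if v ∈ V p then (1 : ℝ) else 0) = ((T.filter fun p => v ∈ V p).card : ℝ) := by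
        rw [Finset.sum_ite, Finset.sum_const_zero, add_zero, Finset.sum_const, nsmul_eq_mul, mul_one]
      have h5 : (Pool.Agent.H691R3.nm v : ℝ) ^ (-(2 : ℝ)) =
          ((Ideal.absNorm v.asIdeal : ℝ) ^ 2)⁻¹ := by
        rw [Real.rpow_neg (Nat.cast_nonneg _), Real.rpow_two]
        rfl
      rw [h4, h5]
      refine small hC hP v hv.2.1 B hB1 hv.2.2 _ fun p hp => ?_
      obtain ⟨hp1, hp2⟩ := Finset.mem_filter.1 hp
      exact ⟨(hT p hp1).1, (hT p hp1).2.1, (hV p hp1 v).1 hp2⟩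
    have h6 : ∑ v ∈ U, ∑ p ∈ T, (if v ∈ V p then (1 : ℝ) else 0) ≤
        12 * C ^ 2 * (B : ℝ) ^ (5 * Module.finrank ℚ F) * Sg := by
      refine (Finset.sum_le_sum h3).trans ?_
      rw [← Finset.mul_sum]
      refine mul_le_mul_of_nonneg_left ?_ (by positivity)
      rw [hSg]
      exact hsum.sum_le_tsum U fun v _ => by positivity
    have h7 : (T.card : ℝ) * (6 + (hW.toFinset.card : ℝ)) ≤
        4 * C ^ 2 * (B : ℝ) ^ (5 * Module.finrank ℚ F) * (6 + (hW.toFinset.card : ℝ)) :=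
      mul_le_mul_of_nonneg_right h2 (by positivity)
    calc _ ≤ _ := h1
      _ ≤ 4 * C ^ 2 * (B : ℝ) ^ (5 * Module.finrank ℚ F) * (6 + (hW.toFinset.card : ℝ)) +
          12 * C ^ 2 * (B : ℝ) ^ (5 * Module.finrank ℚ F) * Sg := add_le_add h7 h6
      _ = _ := by ring
  have hceil := Nat.le_ceil (4 * C ^ 2 * (6 + (hW.toFinset.card : ℝ)) + 12 * C ^ 2 * Sg)
  have hfin : ((∑ p ∈ T, (SqD p.1 p.2).ncard : ℕ) : ℝ) ≤
      ((⌈4 * C ^ 2 * (6 + (hW.toFinset.card : ℝ)) + 12 * C ^ 2 * Sg⌉₊ *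
        B ^ (5 * Module.finrank ℚ F) : ℕ) : ℝ) := by
    refine htot.trans ?_
    push_cast
    exact mul_le_mul_of_nonneg_right hceil hBB
  exact_mod_cast hfin

end Pool.Agent.P8H55.EK
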