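import Pool.Agent.P8H15.BR.Lat
import Pool.Agent.P8H15.EK.Stm

/-!
# Project EK, package LAT: the lattice `𝔞 ∩ 𝓞_F[θ]`
-/

set_option autoImplicit false
set_option linter.all false

open Polynomial NumberField IsDedekindDomain
open scoped Classical

namespace Pool.Agent.P8H55.EK

open Pool.Agent.N783.PF (IsGen Lat fF)
open Pool.Agent.P8H15.BR
open Pool.Agent.P8H15.EK
open Pool.Agent.N61.PF (pol)

variable {F L : Type} [Field F] [NumberField F] [Field L] [NumberField L] [Algebra F L]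

theorem fF_pol (a b : 𝓞 F) : fF (pol a b) = X ^ 3 + C (a : F) * X + C (b : F) := by
  simp only [fF, pol, Polynomial.map_add, Polynomial.map_mul, Polynomial.map_pow, map_X, map_C]

theorem th_int {f : (𝓞 F)[X]} {θ : L} (hG : IsGen 1 f θ) : IsIntegral ℤ θ := by
  have h1 : IsIntegral (𝓞 F) θ := by
    refine ⟨f, hG.mon, ?_⟩
    have h := hG.root
    rw [fF, aeval_map_algebraMap] at h
    exact h
  exact isIntegral_trans (R := ℤ) (A := 𝓞 F) θ h1

theorem inR_int {f : (𝓞 F)[X]} {θ : L} (hG : IsGen 1 f θ) {x : L} (hx : InR F θ x) :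
    ∃ z : 𝓞 L, (z : L) = x := by
  obtain ⟨a, b, c, rfl⟩ := hx
  have hc : ∀ t : 𝓞 F, IsIntegral ℤ (algebraMap F L (t : F)) := fun t =>
    (int_of t).map (algebraMap F L).toIntAlgHom
  refine ⟨⟨el θ (a : F) (b : F) (c : F), ?_⟩, rfl⟩
  exact ((hc a).add ((hc b).mul (th_int hG))).add ((hc c).mul ((th_int hG).pow 2))

/-- the lattice -/
def LL (F : Type) [Field F] [NumberField F] {L : Type} [Field L] [NumberField L] [Algebra F L]
    (θ : L) (𝔞 : Ideal (𝓞 L)) : Submodule (𝓞 F) L where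
  carrier := {x | InR F θ x ∧ ∃ z ∈ 𝔞, ((z : 𝓞 L) : L) = x}
  add_mem' := by
    rintro x y ⟨hx, z, hz, rfl⟩ ⟨hy, w, hw, rfl⟩
    exact ⟨hx.add hy, z + w, 𝔞.add_mem hz hw, rfl⟩
  zero_mem' := ⟨InR.zero, 0, 𝔞.zero_mem, rfl⟩
  smul_mem' := by
    rintro m x ⟨⟨a, b, c, hx⟩, z, hz, rfl⟩
    refine ⟨⟨m * a, m * b, m * c, ?_⟩, algebraMap (𝓞 F) (𝓞 L) m * z,
      𝔞.mul_mem_left _ hz, ?_⟩
    · rw [sm, hx, el_smul]
      rfl
    · rw [sm]
      rfl

theorem mem_LL {θ : L} {𝔞 : Ideal (𝓞 L)} {x : L} :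
    x ∈ LL F θ 𝔞 ↔ InR F θ x ∧ ∃ z ∈ 𝔞, ((z : 𝓞 L) : L) = x := Iff.rfl

theorem LL_fg (θ : L) (𝔞 : Ideal (𝓞 L)) : (LL F θ 𝔞).FG := by
  have h1 : (Submodule.span (𝓞 F) ({1, θ, θ ^ 2} : Set L)).FG := Submodule.fg_span (Set.toFinite _)
  refine h1.of_le ?_
  rintro x ⟨⟨a, b, c, rfl⟩, -⟩
  have e : el θ (a : F) (b : F) (c : F) = a • (1 : L) + b • θ + c • θ ^ 2 := by
    rw [sm, sm, sm, el, mul_one]
  rw [e]
  refine Submodule.add_mem _ (Submodule.add_mem _ (Submodule.smul_mem _ _ ?_)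
    (Submodule.smul_mem _ _ ?_)) (Submodule.smul_mem _ _ ?_)
  · exact Submodule.subset_span (by simp)
  · exact Submodule.subset_span (by simp)
  · exact Submodule.subset_span (by simp)

theorem lat : S_LAT := by
  intro F L _ _ _ _ _ a b θ hG D hD0 hD β 𝔞 hβ h𝔞 hβ1
  have hf := fF_pol (F := F) a b
  -- elements of the conductor
  have hN : ∀ n ∈ D.map (algebraMap (𝓞 F) (𝓞 L)), ∀ z : 𝓞 L, InR F θ ((n : L) * (z : L)) := by
    intro n hn
    rw [Ideal.map] at hn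
    induction hn using Submodule.span_induction with
    | mem x h =>
      obtain ⟨d, hd, rfl⟩ := h
      intro z
      exact hD d hd z
    | zero =>
      intro z
      have e : ((0 : 𝓞 L) : L) * (z : L) = 0 := by
        change (0 : L) * _ = 0
        rw [zero_mul]
      rw [e]
      exact InR.zero
    | add x y _ _ h1 h2 =>
      intro z
      have e : ((x + y : 𝓞 L) : L) * (z : L) = (x : L) * z + (y : L) * z := by
        change ((x : L) + (y : L)) * _ = _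
        rw [add_mul]
      rw [e]
      exact (h1 z).add (h2 z)
    | smul t x _ h =>
      intro z
      have e : ((t • x : 𝓞 L) : L) * (z : L) = (x : L) * ((t * z : 𝓞 L) : L) := by
        change ((t : L) * (x : L)) * (z : L) = (x : L) * ((t : L) * (z : L))
        ring
      rw [e]
      exact h _
  have hβL : (β : L) ≠ 0 := by
    intro h
    exact hβ (RingOfIntegers.ext h)
  have h𝔞0 : 𝔞 ≠ ⊥ := by
    rintro rfl
    rw [Ideal.bot_pow two_ne_zero, Ideal.span_singleton_eq_bot] at h𝔞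
    exact hβ h𝔞
  have hβ𝔞 : β ∈ 𝔞 := by
    have h1 : β ∈ 𝔞 ^ 2 := by rw [← h𝔞]; exact Ideal.mem_span_singleton_self β
    exact Ideal.pow_le_self two_ne_zero h1
  -- the quotient of a product by `β`
  have hdiv : ∀ z ∈ 𝔞 ^ 2, ∃ w : 𝓞 L, z = β * w := by
    intro z hz
    rw [← h𝔞, Ideal.mem_span_singleton'] at hz
    obtain ⟨w, hw⟩ := hz
    exact ⟨w, by rw [← hw, mul_comm]⟩
  have hβR : InR F θ (β : L) := by
    have h1 := hN _ hβ1 1
    have e : (β : L) = 1 + ((β - 1 : 𝓞 L) : L) * ((1 : 𝓞 L) : L) := by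
      change (β : L) = 1 + ((β : L) - 1) * 1
      ring
    rw [e]
    exact InR.one.add h1
  refine ⟨LL F θ 𝔞, ⟨LL_fg θ 𝔞, ?_, ?_, ?_, ?_⟩⟩
  · -- span
    intro x
    obtain ⟨x0, x1, x2, hx⟩ := exists_el hG x
    obtain ⟨m, hm, y0, y1, y2, h0, h1, h2⟩ := exists_int3 x0 x1 x2
    have hNm : Ideal.absNorm 𝔞 ≠ 0 := by
      intro h
      exact h𝔞0 (Ideal.absNorm_eq_zero_iff.1 h)
    have hmR : InR F θ (algebraMap F L (m : F) * x) := ⟨y0, y1, y2, by
      rw [hx, el_smul, h0, h1, h2]⟩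
    obtain ⟨w, hw⟩ := inR_int hG hmR
    refine ⟨(Ideal.absNorm 𝔞 : 𝓞 F) * m, mul_ne_zero (by exact_mod_cast hNm) hm, ?_⟩
    have e : ((Ideal.absNorm 𝔞 : 𝓞 F) * m) • x =
        (Ideal.absNorm 𝔞 : 𝓞 F) • (algebraMap F L (m : F) * x) := by
      rw [mul_smul, sm m x]
    rw [e]
    refine ⟨?_, (Ideal.absNorm 𝔞 : 𝓞 L) * w, 𝔞.mul_mem_right _ (Ideal.absNorm_mem 𝔞), ?_⟩
    · rw [sm]
      exact (InR.of _).mul hG hf hmR
    · rw [sm, ← hw]
      have e1 : (((Ideal.absNorm 𝔞 : ℕ) : 𝓞 F) : F) = ((Ideal.absNorm 𝔞 : ℕ) : F) :=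
        map_natCast (algebraMap (𝓞 F) F) _
      have e2 : (((Ideal.absNorm 𝔞 : ℕ) : 𝓞 L) : L) = ((Ideal.absNorm 𝔞 : ℕ) : L) :=
        map_natCast (algebraMap (𝓞 L) L) _
      rw [e1, map_natCast, ← e2]
      rfl
  · -- stab
    rintro x ⟨hx, z, hz, rfl⟩
    obtain ⟨t, ht⟩ := inR_int hG (InR.th (F := F) (θ := θ))
    refine ⟨InR.th.mul hG hf hx, t * z, 𝔞.mul_mem_left _ hz, ?_⟩
    rw [← ht]
    rfl
  · -- int
    rintro x ⟨hx, z, hz, rfl⟩ y ⟨hy, w, hw, rfl⟩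
    obtain ⟨q, hq⟩ := hdiv (z * w) (by rw [sq]; exact Ideal.mul_mem_mul hz hw)
    have hqL : (z : L) * (w : L) = (β : L) * (q : L) := congrArg (fun t : 𝓞 L => (t : L)) hq
    have e : (z : L) * (w : L) / (β : L) = (q : L) := by
      rw [hqL, mul_div_cancel_left₀ _ hβL]
    have hR : InR F θ (q : L) := by
      have h1 := hN _ hβ1 q
      have e2 : (q : L) = (z : L) * (w : L) + -(((β - 1 : 𝓞 L) : L) * (q : L)) := by
        rw [hqL]
        change (q : L) = (β : L) * (q : L) + -(((β : L) - 1) * (q : L))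
        ring
      rw [e2]
      exact (hx.mul hG hf hy).add h1.neg
    rw [e]
    obtain ⟨q0, q1, q2, hq'⟩ := hR
    rw [hq', top_el]
    exact int_of q2
  · -- dual
    intro y hy
    have hth : θ = el θ (0 : F) 1 0 := by simp [el]
    have hth2 : θ ^ 2 = el θ (0 : F) 0 1 := by simp [el]
    -- `x y / β` is in `R` for all `x` in the lattice
    have hR : ∀ x ∈ LL F θ 𝔞, InR F θ (x * y / (β : L)) := by
      intro x hx
      have hst : ∀ x ∈ LL F θ 𝔞, θ * x ∈ LL F θ 𝔞 := by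
        rintro x ⟨hx, z, hz, rfl⟩
        obtain ⟨t, ht⟩ := inR_int hG (InR.th (F := F) (θ := θ))
        refine ⟨InR.th.mul hG hf hx, t * z, 𝔞.mul_mem_left _ hz, ?_⟩
        rw [← ht]
        rfl
      obtain ⟨Y0, Y1, Y2, hY⟩ := exists_el hG (x * y / (β : L))
      have k2 := hy x hx
      have k1 := hy (θ * x) (hst x hx)
      have k0 := hy (θ * (θ * x)) (hst _ (hst x hx))
      have e1 : θ * x * y / (β : L) = θ * (x * y / (β : L)) := by ring
      have e0 : θ * (θ * x) * y / (β : L) = θ ^ 2 * (x * y / (β : L)) := by ring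
      rw [hY, top_el] at k2
      rw [e1, hY] at k1
      rw [e0, hY] at k0
      have e1' : θ * el θ Y0 Y1 Y2 = el θ (0 : F) 1 0 * el θ Y0 Y1 Y2 := by rw [← hth]
      have e0' : θ ^ 2 * el θ Y0 Y1 Y2 = el θ (0 : F) 0 1 * el θ Y0 Y1 Y2 := by rw [← hth2]
      rw [e1', el_mul hG hf, top_el] at k1
      rw [e0', el_mul hG hf, top_el] at k0
      have j1 : IsIntegral ℤ Y1 := by
        have e : Y1 = 0 * Y2 + 1 * Y1 + 0 * Y0 - (a : F) * (0 * Y2) := by ring
        rw [e]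
        exact k1
      have j0 : IsIntegral ℤ Y0 := by
        have e : Y0 = (0 * Y2 + 0 * Y1 + 1 * Y0 - (a : F) * (1 * Y2)) + (a : F) * Y2 := by ring
        rw [e]
        exact k0.add ((int_of a).mul k2)
      obtain ⟨z0, hz0⟩ := (int_iff _).1 j0
      obtain ⟨z1, hz1⟩ := (int_iff _).1 j1
      obtain ⟨z2, hz2⟩ := (int_iff _).1 k2
      exact ⟨z0, z1, z2, by rw [hY, hz0, hz1, hz2]⟩
    have hyR : InR F θ y := by
      have h1 := hR (β : L) ⟨hβR, β, hβ𝔞, rfl⟩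
      rwa [mul_div_cancel_left₀ _ hβL] at h1
    obtain ⟨y', hy'⟩ := inR_int hG hyR
    refine ⟨hyR, y', ?_, hy'⟩
    -- products with the lattice
    have hprod : ∀ z : 𝓞 L, (z : L) ∈ LL F θ 𝔞 → z * y' ∈ 𝔞 ^ 2 := by
      intro z hz
      obtain ⟨w, hw⟩ := inR_int hG (hR _ hz)
      rw [← h𝔞, Ideal.mem_span_singleton']
      refine ⟨w, RingOfIntegers.ext ?_⟩
      change (w : L) * (β : L) = (z : L) * (y' : L)
      rw [hw, hy', div_mul_cancel₀ _ hβL]
    have hall : ∀ z ∈ 𝔞, z * y' ∈ 𝔞 ^ 2 := by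
      intro z hz
      have h1 : (((β - 1) * z : 𝓞 L) : L) ∈ LL F θ 𝔞 :=
        ⟨hN _ hβ1 z, (β - 1) * z, 𝔞.mul_mem_left _ hz, rfl⟩
      have h2 := hprod _ h1
      have h3 : β * (z * y') ∈ 𝔞 ^ 2 := by
        rw [← h𝔞]
        exact Ideal.mul_mem_right _ _ (Ideal.mem_span_singleton_self β)
      have e : z * y' = β * (z * y') - (β - 1) * z * y' := by ring
      rw [e]
      exact Ideal.sub_mem _ h3 h2
    have hle : 𝔞 * Ideal.span {y'} ≤ 𝔞 * 𝔞 := by
      rw [Ideal.mul_le]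
      intro z hz w hw
      rw [Ideal.mem_span_singleton'] at hw
      obtain ⟨t, rfl⟩ := hw
      have e : z * (t * y') = t * (z * y') := by ring
      rw [e, ← sq]
      exact Ideal.mul_mem_left _ _ (hall z hz)
    rw [← Ideal.dvd_iff_le, mul_dvd_mul_iff_left h𝔞0, Ideal.dvd_iff_le] at hle
    exact hle (Ideal.mem_span_singleton_self y')

end Pool.Agent.P8H55.EK
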